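import Pool.Agent.helper7.EP.SpecB
import Pool.Agent.helper29.OC.PIAP
import Pool.Agent.helper47.RA.Num

/-! Project ep: (MP_ebc808_nt): module FNB: the golden ratio theorem for the even values. -/

set_option autoImplicit false

open Finset PowerSeries

noncomputable section

namespace Pool.Agent.EP

theorem FNB_sE {m n : ℕ} (h : m ≤ n) : sE m ≤ sE n := by
  unfold sE
  exact card_le_card (filter_subset_filter _ (range_subset_range.2 (by omega)))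

/-- the final contradiction -/
theorem FNB_core (s u A r P N B D S1 S2 : ℝ) (hu : 1000 ≤ u) (hsu : u ^ 2 ≤ s) (hr : 0 < r)
    (hA : r / (2 * s) ≤ A) (hP : A / u ≤ P) (hN : s ^ 2 / (8 * u) ≤ N)
    (hB : B ≤ 10 * s + 40 * s ^ 2 / u ^ 10) (_hD0 : 0 ≤ D) (hD : D ≤ u)
    (hS10 : 0 ≤ S1) (hS20 : 0 ≤ S2)
    (hS1 : S1 ≤ r / u ^ 10) (hS2 : S2 ≤ s * r / u ^ 10)
    (h : P * N ≤ P * B + D * (s + 1) * S1 + 8 * D * S2) : False := by
  have hu0 : 0 < u := by linarith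
  have hs : 1000 * u ≤ s := by nlinarith
  have hs1 : 1 ≤ s := by nlinarith
  have hs0 : 0 < s := by linarith
  have hA0 : 0 < A := lt_of_lt_of_le (by positivity) hA
  have hP0 : 0 < P := lt_of_lt_of_le (by positivity) hP
  have hu10 : 1280 * u ≤ u ^ 10 := by
    have h9 : (1000 : ℝ) ^ 9 ≤ u ^ 9 := by gcongr
    have : u ^ 10 = u ^ 9 * u := by ring
    rw [this]
    have : (1280 : ℝ) ≤ u ^ 9 := le_trans (by norm_num) h9
    gcongr
  have e1 : 10 * s ≤ s ^ 2 / (32 * u) := by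
    rw [le_div_iff₀ (by positivity)]
    nlinarith
  have e2 : 40 * s ^ 2 / u ^ 10 ≤ s ^ 2 / (32 * u) := by
    rw [div_le_div_iff₀ (by positivity) (by positivity)]
    nlinarith [mul_le_mul_of_nonneg_left hu10 (sq_nonneg s)]
  have e3 : B ≤ s ^ 2 / (16 * u) := by
    have : s ^ 2 / (16 * u) = s ^ 2 / (32 * u) + s ^ 2 / (32 * u) := by field_simp; norm_num
    rw [this]; linarith
  have e4 : s ^ 2 / (16 * u) ≤ N - B := by
    have : s ^ 2 / (8 * u) = s ^ 2 / (16 * u) + s ^ 2 / (16 * u) := by field_simp; norm_num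
    rw [this] at hN; linarith
  have e5 : r * s / (32 * u ^ 2) ≤ P * (N - B) := by
    calc r * s / (32 * u ^ 2) = (r / (2 * s)) / u * (s ^ 2 / (16 * u)) := by field_simp; norm_num
      _ ≤ A / u * (s ^ 2 / (16 * u)) := by gcongr
      _ ≤ P * (N - B) := by gcongr
  have e6 : D * (s + 1) * S1 ≤ u * (2 * s) * (r / u ^ 10) := by
    gcongr
    linarith
  have e7 : 8 * D * S2 ≤ 8 * u * (s * r / u ^ 10) := by gcongr
  have e8 : r * s / (32 * u ^ 2) ≤ 10 * u * (s * r) / u ^ 10 := by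
    have : u * (2 * s) * (r / u ^ 10) + 8 * u * (s * r / u ^ 10) = 10 * u * (s * r) / u ^ 10 := by
      ring
    nlinarith
  rw [div_le_div_iff₀ (by positivity) (by positivity)] at e8
  have hrs : 0 < r * s := by positivity
  have e9 : u ^ 10 ≤ 320 * u ^ 3 := by
    have : r * s * u ^ 10 ≤ r * s * (320 * u ^ 3) := by nlinarith
    exact le_of_mul_le_mul_left this hrs
  have e10 : (1000 : ℝ) ^ 7 ≤ u ^ 7 := by gcongr
  have e11 : u ^ 10 = u ^ 3 * u ^ 7 := by ring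
  rw [e11] at e9
  have hu3 : 0 < u ^ 3 := by positivity
  nlinarith

/-- powers grow -/
theorem FNB_ev {δ : ℝ} (hδ : 0 < δ) (C : ℝ) : ∃ X₀ : ℕ, ∀ X : ℕ, X₀ ≤ X → C ≤ (X : ℝ) ^ δ := by
  have h := ((tendsto_rpow_atTop hδ).comp tendsto_natCast_atTop_atTop).eventually_ge_atTop C
  obtain ⟨X₀, h⟩ := Filter.eventually_atTop.1 h
  exact ⟨X₀, h⟩

theorem FNB_log {δ c : ℝ} (hδ : 0 < δ) (hc : 0 < c) :
    ∃ X₀ : ℕ, ∀ X : ℕ, X₀ ≤ X → Real.log X ≤ c * (X : ℝ) ^ δ := by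
  have h := (isLittleO_log_rpow_atTop hδ).bound hc
  have h2 := tendsto_natCast_atTop_atTop.eventually h
  obtain ⟨X₀, h⟩ := Filter.eventually_atTop.1 h2
  refine ⟨X₀, fun X hX => ?_⟩
  have := h X hX
  rw [Real.norm_eq_abs, Real.norm_eq_abs, abs_of_nonneg (by positivity : (0:ℝ) ≤ (X:ℝ) ^ δ)] at this
  exact (le_abs_self _).trans this

/-- very large `Z` -/
theorem FNB_case1 (hRA : RESA_stmt) (ε : ℝ) (hε : 0 < ε) (hε1 : ε ≤ 1 / 100) :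
    ∃ X₀ : ℕ, ∀ X Z : ℕ, X₀ ≤ X → (X : ℝ) ^ (2 - ε) ≤ Z →
      ((X : ℝ) * Z) ^ (1 / 2 - ε) ≤ sE Z := by
  obtain ⟨c, hc, Z₀, hZ₀⟩ := hRA
  obtain ⟨X1, h1⟩ := FNB_log (δ := ε / 2) (c := 1) (by positivity) one_pos
  obtain ⟨X2, h2⟩ := FNB_ev (δ := ε / 2) (by positivity) (1 / c)
  refine ⟨max (max X1 X2) (max Z₀ 3), fun X Z hX hZ => ?_⟩
  simp only [max_le_iff] at hX
  obtain ⟨⟨hX1, hX2⟩, hX3, hX4⟩ := hX
  have hx1 : (1 : ℝ) ≤ X := by exact_mod_cast (by omega : 1 ≤ X)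
  have hx0 : (0 : ℝ) < X := by linarith
  have hXZ' : (X : ℝ) ≤ Z := by
    refine le_trans ?_ hZ
    calc (X : ℝ) = (X : ℝ) ^ (1 : ℝ) := (Real.rpow_one _).symm
      _ ≤ (X : ℝ) ^ (2 - ε) := Real.rpow_le_rpow_of_exponent_le hx1 (by linarith)
  have hXZ : X ≤ Z := by exact_mod_cast hXZ'
  have hz1 : (1 : ℝ) ≤ Z := by linarith
  have hz0 : (0 : ℝ) < Z := by linarith
  refine le_trans ?_ (hZ₀ Z (by omega))
  have hXle : (X : ℝ) ≤ (Z : ℝ) ^ (1 / (2 - ε)) := by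
    have := Real.rpow_le_rpow (by positivity) hZ (by
      have : 0 < 2 - ε := by linarith
      positivity : 0 ≤ 1 / (2 - ε))
    rw [← Real.rpow_mul hx0.le, mul_one_div, div_self (by linarith), Real.rpow_one] at this
    exact this
  have e1 : ((X : ℝ) * Z) ^ (1 / 2 - ε) ≤ (Z : ℝ) ^ (3 / 4 - 5 / 4 * ε) := by
    calc ((X : ℝ) * Z) ^ (1 / 2 - ε)
        ≤ ((Z : ℝ) ^ (1 / (2 - ε)) * (Z : ℝ) ^ (1 : ℝ)) ^ (1 / 2 - ε) := by
          rw [Real.rpow_one]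
          refine Real.rpow_le_rpow (by positivity) ?_ (by linarith)
          gcongr
      _ = (Z : ℝ) ^ ((1 / (2 - ε) + 1) * (1 / 2 - ε)) := by
          rw [← Real.rpow_add hz0, ← Real.rpow_mul hz0.le]
      _ ≤ (Z : ℝ) ^ (3 / 4 - 5 / 4 * ε) := by
          refine Real.rpow_le_rpow_of_exponent_le hz1 ?_
          have h3 : 1 / (2 - ε) ≤ 1 / 2 + ε / 2 := by
            rw [div_le_iff₀ (by linarith)]
            nlinarith
          nlinarith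
  refine e1.trans ?_
  have hlog0 : 0 < Real.log Z := Real.log_pos (by exact_mod_cast (by omega : 1 < Z))
  rw [le_div_iff₀ (by positivity)]
  have e2 : Real.log Z ^ (3 / 2 : ℝ) ≤ (Z : ℝ) ^ (3 / 4 * ε) := by
    have h3 := h1 Z (by omega)
    rw [one_mul] at h3
    calc Real.log Z ^ (3 / 2 : ℝ) ≤ ((Z : ℝ) ^ (ε / 2)) ^ (3 / 2 : ℝ) :=
          Real.rpow_le_rpow hlog0.le h3 (by norm_num)
      _ = (Z : ℝ) ^ (3 / 4 * ε) := by
          rw [← Real.rpow_mul hz0.le]; congr 1; ring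
  have e3 : 1 ≤ c * (Z : ℝ) ^ (ε / 2) := by
    have := h2 Z (by omega)
    rw [div_le_iff₀ hc] at this
    linarith
  calc (Z : ℝ) ^ (3 / 4 - 5 / 4 * ε) * Real.log Z ^ (3 / 2 : ℝ)
      ≤ (Z : ℝ) ^ (3 / 4 - 5 / 4 * ε) * (Z : ℝ) ^ (3 / 4 * ε) := by gcongr
    _ = (Z : ℝ) ^ (3 / 4 - ε / 2) * 1 := by
        rw [← Real.rpow_add hz0, mul_one]; congr 1; ring
    _ ≤ (Z : ℝ) ^ (3 / 4 - ε / 2) * (c * (Z : ℝ) ^ (ε / 2)) := by gcongr
    _ = c * (Z : ℝ) ^ (3 / 4 : ℝ) := by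
        rw [mul_left_comm, ← Real.rpow_add hz0]; congr 2; ring

/-- the choice of `a` -/
theorem FNB_a (X' Z : ℕ) (hX' : 1 ≤ X') (hZ : 2 * X' ≤ Z) :
    ∃ a : ℕ, 2 * 4 ^ a * X' ≤ Z ∧ Z < 8 * 4 ^ a * X' := by
  refine ⟨Nat.log 4 (Z / (2 * X')), ?_, ?_⟩
  · have hne : Z / (2 * X') ≠ 0 := by
      rw [Nat.div_ne_zero_iff]
      omega
    have h := Nat.pow_log_le_self 4 hne
    rw [Nat.le_div_iff_mul_le (by omega)] at h
    calc 2 * 4 ^ Nat.log 4 (Z / (2 * X')) * X' = 4 ^ Nat.log 4 (Z / (2 * X')) * (2 * X') := by ring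
      _ ≤ Z := h
  · have h := Nat.lt_pow_succ_log_self (b := 4) (by norm_num) (Z / (2 * X'))
    rw [Nat.div_lt_iff_lt_mul (by omega)] at h
    calc Z < 4 ^ (Nat.log 4 (Z / (2 * X'))).succ * (2 * X') := h
      _ = 8 * 4 ^ Nat.log 4 (Z / (2 * X')) * X' := by rw [pow_succ]; ring

/-- the bracket -/
theorem FNB_B (X' a y : ℕ) (s u : ℝ) (hu : 1000 ≤ u) (hsu : u ^ 2 ≤ s)
    (hX1 : (X' : ℝ) ≤ s ^ 2 / 2)
    (hA1 : ((2 : ℝ) ^ a) ^ 2 ≤ s ^ 2) (hA1' : (2 : ℝ) ^ a ≤ 2 * s / u ^ 10)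
    (hA2 : s * u ^ 20 / 4 ≤ ((2 : ℝ) ^ a) ^ 2)
    (hy : s / 16 ≤ (y : ℝ)) :
    ((2 * (Nat.sqrt (8 * X' + 1 + 4 ^ a) + 1) + 2 * 2 ^ a * (X' / y + 1) +
      (Nat.sqrt (2 * X') + 1) * (X' / 4 ^ a + 1) : ℕ) : ℝ) ≤ 10 * s + 40 * s ^ 2 / u ^ 10 := by
  have hu0 : 0 < u := by linarith
  have hs1000 : 1000 ≤ s := by nlinarith
  have hs0 : 0 < s := by linarith
  have h4 : ((4 ^ a : ℕ) : ℝ) = ((2 : ℝ) ^ a) ^ 2 := by
    push_cast
    rw [← pow_mul, mul_comm a 2, pow_mul]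
    norm_num
  have hsq : ∀ n : ℕ, ((Nat.sqrt n : ℕ) : ℝ) ≤ Real.sqrt n := fun n => Real.nat_sqrt_le_real_sqrt
  have e1 : ((Nat.sqrt (8 * X' + 1 + 4 ^ a) : ℕ) : ℝ) ≤ 3 * s := by
    refine (hsq _).trans ?_
    apply Real.sqrt_le_iff.2
    refine ⟨by positivity, ?_⟩
    push_cast
    have h4' : (4 : ℝ) ^ a = ((2 : ℝ) ^ a) ^ 2 := by
      rw [← h4]; push_cast; rfl
    rw [h4']
    nlinarith
  have e2 : ((Nat.sqrt (2 * X') : ℕ) : ℝ) ≤ s := by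
    refine (hsq _).trans ?_
    apply Real.sqrt_le_iff.2
    refine ⟨by positivity, ?_⟩
    push_cast
    linarith
  have hy0 : (0 : ℝ) < y := lt_of_lt_of_le (by positivity) hy
  have e3 : ((X' / y : ℕ) : ℝ) ≤ 8 * s := by
    refine Nat.cast_div_le.trans ?_
    rw [div_le_iff₀ hy0]
    nlinarith
  have hA0 : (0 : ℝ) < (2 : ℝ) ^ a := by positivity
  have e4 : ((X' / 4 ^ a : ℕ) : ℝ) ≤ 2 * s / u ^ 20 := by
    refine Nat.cast_div_le.trans ?_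
    rw [h4, div_le_div_iff₀ (by positivity) (by positivity)]
    have : s * (s * u ^ 20 / 4) ≤ s * ((2 : ℝ) ^ a) ^ 2 := by gcongr
    have h5 : (X' : ℝ) * u ^ 20 ≤ s ^ 2 / 2 * u ^ 20 := by gcongr
    nlinarith
  push_cast
  have h6 : (2 : ℝ) * ((Nat.sqrt (8 * X' + 1 + 4 ^ a) : ℕ) + 1) ≤ 2 * (3 * s + 1) := by gcongr
  have h7 : (2 : ℝ) * 2 ^ a * (((X' / y : ℕ) : ℝ) + 1) ≤ 2 * (2 * s / u ^ 10) * (8 * s + 1) := by
    gcongr
  have h8 : (((Nat.sqrt (2 * X') : ℕ) : ℝ) + 1) * (((X' / 4 ^ a : ℕ) : ℝ) + 1) ≤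
      (s + 1) * (2 * s / u ^ 20 + 1) := by gcongr
  have h9 : 2 * (2 * s / u ^ 10) * (8 * s + 1) ≤ 36 * s ^ 2 / u ^ 10 := by
    rw [le_div_iff₀ (by positivity)]
    have : 2 * (2 * s / u ^ 10) * (8 * s + 1) * u ^ 10 = 4 * s * (8 * s + 1) := by
      field_simp
      ring
    rw [this]
    nlinarith
  have h10 : (s + 1) * (2 * s / u ^ 20 + 1) ≤ 2 * s + 4 * s ^ 2 / u ^ 10 := by
    have h11 : 2 * s / u ^ 20 ≤ 2 * s / u ^ 10 := by
      have : u ^ 10 ≤ u ^ 20 := pow_le_pow_right₀ (by linarith) (by norm_num)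
      gcongr
    have h12 : (s + 1) * (2 * s / u ^ 20 + 1) ≤ (2 * s) * (2 * s / u ^ 10 + 1) := by
      gcongr
      linarith
    refine h12.trans (le_of_eq ?_)
    ring
  have h13 : 36 * s ^ 2 / u ^ 10 + 4 * s ^ 2 / u ^ 10 = 40 * s ^ 2 / u ^ 10 := by ring
  linarith

/-- bounds for `A` -/
theorem FNB_A (s u A z X' : ℝ) (hu : 1000 ≤ u) (hsu : u ^ 2 ≤ s)
    (hzlow : s ^ 3 * u ^ 20 ≤ z) (hzup : z ≤ s ^ 4 / u ^ 20) (hX'u : X' ≤ s ^ 2 / 2)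
    (hX'l : s ^ 2 / 4 ≤ X') (ha1 : 2 * A ^ 2 * X' ≤ z) (ha2 : z ≤ 8 * A ^ 2 * X') (hA0 : 0 < A) :
    s * u ^ 20 / 4 ≤ A ^ 2 ∧ A ≤ 2 * s / u ^ 10 ∧ A ≤ s / 32 ∧ u ≤ A ∧
      Real.sqrt z / (2 * s) ≤ A := by
  have hu0 : 0 < u := by linarith
  have hs1000 : 1000 ≤ s := by nlinarith
  have hs0 : 0 < s := by linarith
  have hu10 : (1000 : ℝ) ^ 10 ≤ u ^ 10 := by gcongr
  have hAup : A ^ 2 * s ^ 2 ≤ 2 * z := by
    calc A ^ 2 * s ^ 2 ≤ A ^ 2 * (4 * X') := by gcongr; linarith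
      _ = 2 * (2 * A ^ 2 * X') := by ring
      _ ≤ 2 * z := by linarith
  have hAlow : z ≤ 4 * A ^ 2 * s ^ 2 := by
    calc z ≤ 8 * A ^ 2 * X' := ha2
      _ ≤ 8 * A ^ 2 * (s ^ 2 / 2) := by gcongr
      _ = 4 * A ^ 2 * s ^ 2 := by ring
  have hs2 : 0 < s ^ 2 := by positivity
  have hA2 : s * u ^ 20 / 4 ≤ A ^ 2 := by
    have e2 : s ^ 2 * (s * u ^ 20) ≤ s ^ 2 * (4 * A ^ 2) := by
      calc s ^ 2 * (s * u ^ 20) = s ^ 3 * u ^ 20 := by ring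
        _ ≤ z := hzlow
        _ ≤ 4 * A ^ 2 * s ^ 2 := hAlow
        _ = s ^ 2 * (4 * A ^ 2) := by ring
    have e3 := le_of_mul_le_mul_left e2 hs2
    linarith
  have hAup2 : A ^ 2 ≤ 2 * s ^ 2 / u ^ 20 := by
    rw [le_div_iff₀ (by positivity)]
    have e1 : z * u ^ 20 ≤ s ^ 4 := by
      rwa [le_div_iff₀ (by positivity)] at hzup
    have e3 : s ^ 2 * (A ^ 2 * u ^ 20) ≤ s ^ 2 * (2 * s ^ 2) := by
      calc s ^ 2 * (A ^ 2 * u ^ 20) = A ^ 2 * s ^ 2 * u ^ 20 := by ring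
        _ ≤ 2 * z * u ^ 20 := by gcongr
        _ = 2 * (z * u ^ 20) := by ring
        _ ≤ 2 * s ^ 4 := by linarith
        _ = s ^ 2 * (2 * s ^ 2) := by ring
    exact le_of_mul_le_mul_left e3 hs2
  have hA1' : A ≤ 2 * s / u ^ 10 := by
    have e1 : A ^ 2 ≤ (2 * s / u ^ 10) ^ 2 := by
      refine hAup2.trans ?_
      have : (2 * s / u ^ 10) ^ 2 = 4 * s ^ 2 / u ^ 20 := by
        rw [div_pow]; congr 1 <;> ring
      rw [this]
      gcongr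
      norm_num
    exact (pow_le_pow_iff_left₀ hA0.le (by positivity) two_ne_zero).1 e1
  have hA16 : A ≤ s / 32 := by
    refine hA1'.trans ?_
    rw [div_le_iff₀ (by positivity)]
    have : (64 : ℝ) ≤ u ^ 10 := le_trans (by norm_num) hu10
    calc 2 * s = s / 32 * 64 := by ring
      _ ≤ s / 32 * u ^ 10 := by gcongr
  have hAu : u ≤ A := by
    have e1 : u ^ 2 ≤ A ^ 2 := by
      refine le_trans ?_ hA2
      have e3 : (1 : ℝ) ≤ u ^ 18 := one_le_pow₀ (by linarith)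
      calc u ^ 2 = u ^ 2 * 1 * 4 / 4 := by ring
        _ ≤ u ^ 2 * u ^ 18 * s / 4 := by
            gcongr
            linarith
        _ = s * u ^ 20 / 4 := by ring
    exact (pow_le_pow_iff_left₀ hu0.le hA0.le two_ne_zero).1 e1
  refine ⟨hA2, hA1', hA16, hAu, ?_⟩
  rw [div_le_iff₀ (by positivity)]
  apply Real.sqrt_le_iff.2
  refine ⟨by positivity, ?_⟩
  calc z ≤ 4 * A ^ 2 * s ^ 2 := hAlow
    _ = (A * (2 * s)) ^ 2 := by ring

theorem FNB_case2 (hLW : LW2_stmt) (hCN : CNB_stmt) (ε : ℝ) (hε : 0 < ε) (hε1 : ε ≤ 1 / 100) :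
    ∃ X₀ : ℕ, ∀ X Z : ℕ, X₀ ≤ X → (X : ℝ) ^ (3 / 2 + ε) ≤ Z → (Z : ℝ) ≤ (X : ℝ) ^ (2 - ε) →
      (Z : ℝ) ^ (1 / 2 - ε) ≤ sE X ∨ ((X : ℝ) * Z) ^ (1 / 2 - ε) ≤ sE Z := by
  set ε₁ : ℝ := ε / 100 with hε₁
  have hε₁0 : 0 < ε₁ := by positivity
  have hεε : ε = 100 * ε₁ := by rw [hε₁]; ring
  obtain ⟨XL, hXL⟩ := hLW ε₁ hε₁0
  obtain ⟨c, x₀, hc, hpr⟩ := Pool.Agent.helper7.OC.primes_ap 24 1 (by norm_num) (by norm_num)
  obtain ⟨C, hC1, hdiv⟩ := Pool.Agent.helper47.RA.card_divisors_le (ε₁ / 4) (by positivity)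
  obtain ⟨X1, h1⟩ := FNB_ev hε₁0 (max 1000 x₀)
  obtain ⟨X2, h2⟩ := FNB_log hε₁0 hc
  obtain ⟨X3, h3⟩ := FNB_ev (δ := ε₁ / 2) (by positivity) (C * 17328)
  refine ⟨max (max X1 X2) (max X3 (2 * XL + 4)), fun X Z hX hZ1 hZ2 => ?_⟩
  simp only [max_le_iff] at hX
  obtain ⟨⟨hX1, hX2⟩, hX3, hX4⟩ := hX
  have hu' := h1 X hX1
  have hlogX := h2 X hX2
  have hCX := h3 X hX3
  have hx4 : (4 : ℝ) ≤ X := by exact_mod_cast (by omega : 4 ≤ X)
  have hx0 : (0 : ℝ) < X := by linarith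
  have hx1 : (1 : ℝ) ≤ X := by linarith
  set x : ℝ := (X : ℝ) with hx
  set u : ℝ := x ^ ε₁ with hudef
  set s : ℝ := Real.sqrt x with hsdef
  have hu : 1000 ≤ u := (le_max_left _ _).trans hu'
  have hux : (x₀ : ℝ) ≤ u := (le_max_right _ _).trans hu'
  have hu0 : 0 < u := by linarith
  have hs0 : 0 < s := Real.sqrt_pos.2 hx0
  have hs2 : s ^ 2 = x := Real.sq_sqrt hx0.le
  have hupow : ∀ k : ℕ, u ^ k = x ^ (ε₁ * k) := fun k => by
    rw [hudef, ← Real.rpow_natCast, ← Real.rpow_mul hx0.le]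
  have hsx : s = x ^ (1 / 2 : ℝ) := Real.sqrt_eq_rpow x
  have hsu : u ^ 2 ≤ s := by
    rw [hupow, hsx]
    refine Real.rpow_le_rpow_of_exponent_le hx1 ?_
    push_cast
    linarith
  have hs1000 : 1000 ≤ s := by nlinarith
  have h8u : 8 * u ≤ s ^ 2 := by nlinarith
  have hsx2 : s / 32 ≤ x := by rw [← hs2]; nlinarith
  set z : ℝ := (Z : ℝ) with hz
  have hzlow : s ^ 3 * u ^ 20 ≤ z := by
    refine le_trans ?_ hZ1
    have e1 : s ^ 3 * u ^ 20 = x ^ (3 / 2 + ε₁ * 20) := by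
      rw [Real.rpow_add hx0, hupow]
      congr 1
      · have : s ^ 3 = s ^ 2 * s := by ring
        rw [this, hs2, hsx]
        nth_rewrite 1 [← Real.rpow_one x]
        rw [← Real.rpow_add hx0]
        norm_num
    rw [e1]
    refine Real.rpow_le_rpow_of_exponent_le hx1 ?_
    linarith
  have hzup : z ≤ s ^ 4 / u ^ 20 := by
    refine hZ2.trans ?_
    have e1 : s ^ 4 / u ^ 20 = x ^ (2 - ε₁ * 20) := by
      rw [Real.rpow_sub hx0, hupow]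
      congr 1
      · have : s ^ 4 = (s ^ 2) ^ 2 := by ring
        rw [this, hs2]
        norm_num
    rw [e1]
    refine Real.rpow_le_rpow_of_exponent_le hx1 ?_
    linarith
  have hu20 : (1 : ℝ) ≤ u ^ 20 := one_le_pow₀ (by linarith)
  have hxz : x ≤ z := by
    refine le_trans ?_ hzlow
    rw [← hs2]
    calc s ^ 2 = s ^ 2 * 1 * 1 := by ring
      _ ≤ s ^ 2 * s * u ^ 20 := by
          gcongr
          linarith
      _ = s ^ 3 * u ^ 20 := by ring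
  have hz0 : 0 < z := by linarith
  -- the number a
  set X' := X / 2 with hX'
  have hX'1 : 1 ≤ X' := by omega
  have hXZ : X ≤ Z := Nat.cast_le.1 hxz
  obtain ⟨a, ha1, ha2⟩ := FNB_a X' Z hX'1 (by omega)
  have hX'u : (X' : ℝ) ≤ s ^ 2 / 2 := by
    rw [hs2, hX']
    exact (Nat.cast_div_le : ((X / 2 : ℕ) : ℝ) ≤ (X : ℝ) / (2 : ℕ))
  have hX'l : s ^ 2 / 4 ≤ (X' : ℝ) := by
    rw [hs2, div_le_iff₀ (by norm_num)]
    have e1 : X ≤ X' * 4 := by omega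
    have e2 : (X : ℝ) ≤ ((X' * 4 : ℕ) : ℝ) := Nat.cast_le.2 e1
    push_cast at e2
    exact e2
  have h4 : ((4 : ℝ) ^ a) = ((2 : ℝ) ^ a) ^ 2 := by
    rw [← pow_mul, mul_comm a 2, pow_mul]
    norm_num
  set A : ℝ := (2 : ℝ) ^ a with hAdef
  have hA0 : 0 < A := by positivity
  have ha1' : 2 * A ^ 2 * X' ≤ z := by
    rw [← h4]
    have : ((2 * 4 ^ a * X' : ℕ) : ℝ) ≤ (Z : ℝ) := Nat.cast_le.2 ha1
    push_cast at this
    exact this
  have ha2' : z ≤ 8 * A ^ 2 * X' := by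
    rw [← h4]
    have : (Z : ℝ) ≤ ((8 * 4 ^ a * X' : ℕ) : ℝ) := Nat.cast_le.2 ha2.le
    push_cast at this
    exact this
  obtain ⟨hA2, hA1', hA16, hAu, hAr⟩ :=
    FNB_A s u A z X' hu hsu hzlow hzup hX'u hX'l ha1' ha2' hA0
  have hA1024 : A ^ 2 ≤ s ^ 2 / 1024 := by
    have e1 := pow_le_pow_left₀ hA0.le hA16 2
    have e2 : (s / 32) ^ 2 = s ^ 2 / 1024 := by ring
    rwa [e2] at e1
  have hs20 : 0 ≤ s ^ 2 := sq_nonneg s
  have hA1 : A ^ 2 ≤ s ^ 2 := by linarith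
  have h16 : 16 * 4 ^ a ≤ X' := by
    have e1 : (16 : ℝ) * A ^ 2 ≤ X' := by linarith
    rw [← h4] at e1
    exact_mod_cast e1
  have hX'a : (X' : ℝ) ^ ε₁ ≤ 2 ^ a := by
    refine le_trans ?_ hAu
    rw [hudef]
    refine Real.rpow_le_rpow (by positivity) ?_ hε₁0.le
    linarith
  -- the number y
  set y := Nat.sqrt X' / 4 with hy
  have hysq : s / 2 ≤ (Nat.sqrt X' : ℝ) + 1 := by
    have e1 : Real.sqrt X' < (Nat.sqrt X' : ℝ) + 1 := by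
      exact_mod_cast Real.real_sqrt_lt_nat_sqrt_succ
    have e2 : s / 2 ≤ Real.sqrt X' := by
      apply Real.le_sqrt_of_sq_le
      have e3 : (s / 2) ^ 2 = s ^ 2 / 4 := by ring
      rw [e3]
      exact hX'l
    linarith
  have hyl : s / 16 ≤ (y : ℝ) := by
    have e1 : (Nat.sqrt X' : ℝ) ≤ 4 * (y : ℝ) + 3 := by
      have : Nat.sqrt X' ≤ 4 * y + 3 := by omega
      exact_mod_cast this
    linarith
  have hay : 2 ^ a ≤ y := by
    have : (2 : ℝ) ^ a ≤ (y : ℝ) := by linarith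
    exact_mod_cast this
  have ha3 : 3 ≤ a := by
    by_contra hlt
    have : a ≤ 2 := by omega
    have e1 : A ≤ 2 ^ 2 := pow_le_pow_right₀ (by norm_num) this
    linarith
  -- divisors
  have hD : ∀ m : ℕ, 0 < m → m ≤ 17328 * (4 ^ a * X') → m.divisors.card ≤ ⌊u⌋₊ := by
    intro m hm hm2
    refine Nat.le_floor ?_
    refine (hdiv m hm).trans ?_
    have e1 : (m : ℝ) ≤ 17328 * x ^ (2 : ℝ) := by
      have e2 : (m : ℝ) ≤ 17328 * (A ^ 2 * X') := by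
        rw [← h4]; exact_mod_cast hm2
      have e3 : s ^ 4 / u ^ 20 ≤ s ^ 4 := div_le_self (by positivity) (by linarith)
      have e4 : x ^ (2 : ℝ) = s ^ 4 := by
        rw [← hs2]; norm_cast; ring
      rw [e4]
      linarith
    calc C * (m : ℝ) ^ (ε₁ / 4) ≤ C * (17328 * x ^ (2 : ℝ)) ^ (ε₁ / 4) := by
          gcongr
      _ = C * ((17328 : ℝ) ^ (ε₁ / 4) * x ^ (ε₁ / 2)) := by
          rw [Real.mul_rpow (by norm_num) (by positivity), ← Real.rpow_mul hx0.le]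
          congr 3; ring
      _ ≤ C * (17328 * x ^ (ε₁ / 2)) := by
          gcongr
          calc (17328 : ℝ) ^ (ε₁ / 4) ≤ (17328 : ℝ) ^ (1 : ℝ) :=
                Real.rpow_le_rpow_of_exponent_le (by norm_num) (by linarith)
            _ = 17328 := Real.rpow_one _
      _ = (C * 17328) * x ^ (ε₁ / 2) := by ring
      _ ≤ x ^ (ε₁ / 2) * x ^ (ε₁ / 2) := by gcongr
      _ = u := by rw [← Real.rpow_add hx0, hudef]; congr 1; ring
  -- the numbers N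
  have hN : ∀ e : ℕ, e < 2 → ⌊(X' : ℝ) ^ (1 - ε₁)⌋₊ ≤
      Set.ncard {n : ℕ | n ≤ X' ∧ SpY a y n ∧ #(rs (2 ^ a) n) % 2 = e} := by
    intro e he
    exact Nat.floor_le_of_le (hXL X' a e (by omega) hX'a h16 he)
  have hmain := hCN a y X' ⌊u⌋₊ ⌊(X' : ℝ) ^ (1 - ε₁)⌋₊ ha3 hay hD hN
  -- lower bounds
  have hNl : s ^ 2 / (8 * u) ≤ ((⌊(X' : ℝ) ^ (1 - ε₁)⌋₊ : ℕ) : ℝ) := by
    have e1 : s ^ 2 / (4 * u) ≤ (X' : ℝ) ^ (1 - ε₁) := by
      calc s ^ 2 / (4 * u) = x / u / 4 := by rw [hs2]; field_simp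
        _ = x ^ (1 - ε₁) / 4 := by rw [Real.rpow_sub hx0, Real.rpow_one]
        _ ≤ x ^ (1 - ε₁) / 4 ^ (1 - ε₁) := by
            gcongr
            calc (4 : ℝ) ^ (1 - ε₁) ≤ 4 ^ (1 : ℝ) :=
                  Real.rpow_le_rpow_of_exponent_le (by norm_num) (by linarith)
              _ = 4 := Real.rpow_one _
        _ = (x / 4) ^ (1 - ε₁) := by rw [Real.div_rpow hx0.le (by norm_num)]
        _ ≤ (X' : ℝ) ^ (1 - ε₁) := by
            refine Real.rpow_le_rpow (by positivity) ?_ (by linarith)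
            rw [← hs2]; exact hX'l
    have e2 := Nat.sub_one_lt_floor ((X' : ℝ) ^ (1 - ε₁))
    have e3 : s ^ 2 / (4 * u) = s ^ 2 / (8 * u) + s ^ 2 / (8 * u) := by field_simp; norm_num
    have e4 : 1 ≤ s ^ 2 / (8 * u) := by
      rw [le_div_iff₀ (by positivity), one_mul]
      exact h8u
    linarith
  have hPl : A / u ≤ ((#(PK a) : ℕ) : ℝ) := by
    have e0 : x₀ ≤ 2 ^ a := by
      have : (x₀ : ℝ) ≤ (2 : ℝ) ^ a := hux.trans hAu
      exact_mod_cast this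
    have e1 := hpr (2 ^ a) e0
    refine le_trans ?_ e1
    have e2 : (((2 ^ a : ℕ) : ℕ) : ℝ) = A := by push_cast; rfl
    rw [e2]
    have hlogA : 0 < Real.log A := Real.log_pos (by linarith)
    have hlogA2 : Real.log A ≤ c * u := le_trans (Real.log_le_log hA0 (hA16.trans hsx2)) hlogX
    rw [div_le_div_iff₀ hu0 hlogA]
    calc A * Real.log A ≤ A * (c * u) := by gcongr
      _ = c * A * u := by ring
  by_contra hcon
  push Not at hcon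
  obtain ⟨hc1, hc2⟩ := hcon
  have hr0 : 0 < Real.sqrt z := Real.sqrt_pos.2 hz0
  have hxε : u ^ 10 ≤ x ^ ε := by
    rw [hupow]
    refine Real.rpow_le_rpow_of_exponent_le hx1 ?_
    push_cast
    linarith
  have hS1 : ((sE X : ℕ) : ℝ) ≤ Real.sqrt z / u ^ 10 := by
    refine hc1.le.trans ?_
    rw [Real.rpow_sub hz0, ← Real.sqrt_eq_rpow]
    have e1 : u ^ 10 ≤ z ^ ε := hxε.trans (Real.rpow_le_rpow hx0.le hxz hε.le)
    gcongr
  have hS2 : ((sE Z : ℕ) : ℝ) ≤ s * Real.sqrt z / u ^ 10 := by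
    refine hc2.le.trans ?_
    rw [Real.rpow_sub (by positivity), ← Real.sqrt_eq_rpow, Real.sqrt_mul hx0.le]
    have e1 : u ^ 10 ≤ (x * z) ^ ε := by
      refine hxε.trans (Real.rpow_le_rpow hx0.le ?_ hε.le)
      exact le_mul_of_one_le_right hx0.le (by linarith)
    gcongr
  have hBB := FNB_B X' a y s u hu hsu hX'u hA1 hA1' hA2 hyl
  have hs2X : ((Nat.sqrt (2 * X') : ℕ) : ℝ) ≤ s := by
    refine (Real.nat_sqrt_le_real_sqrt).trans ?_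
    apply Real.sqrt_le_iff.2
    refine ⟨by positivity, ?_⟩
    push_cast
    linarith
  have hm1 : ((#(PK a) * ⌊(X' : ℝ) ^ (1 - ε₁)⌋₊ : ℕ) : ℝ) ≤ _ := Nat.cast_le.2 hmain
  rw [Nat.cast_mul, Nat.cast_add, Nat.cast_add, Nat.cast_mul, Nat.cast_mul, Nat.cast_mul,
    Nat.cast_mul, Nat.cast_mul] at hm1
  have hfl : ((⌊u⌋₊ : ℕ) : ℝ) ≤ u := Nat.floor_le hu0.le
  have hE1 : ((sE (2 * X') : ℕ) : ℝ) ≤ ((sE X : ℕ) : ℝ) := by
    exact_mod_cast FNB_sE (by omega)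
  have hE2 : ((sE (2 * 4 ^ a * X') : ℕ) : ℝ) ≤ ((sE Z : ℕ) : ℝ) := by
    exact_mod_cast FNB_sE ha1
  refine FNB_core s u A (Real.sqrt z) ((#(PK a) : ℕ) : ℝ) _ _ ((⌊u⌋₊ : ℕ) : ℝ)
    ((sE X : ℕ) : ℝ) ((sE Z : ℕ) : ℝ) hu hsu hr0 hAr hPl hNl hBB (by positivity) hfl
    (by positivity) (by positivity) hS1 hS2 ?_
  refine hm1.trans ?_
  push_cast
  gcongr

theorem FNB (hLW : LW2_stmt) (hCN : CNB_stmt) (hRA : RESA_stmt) : RESB2_stmt := by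
  intro ε hε
  set η : ℝ := min ε (1 / 100) with hη
  have hη0 : 0 < η := lt_min hε (by norm_num)
  have hη1 : η ≤ 1 / 100 := min_le_right _ _
  have hηε : η ≤ ε := min_le_left _ _
  obtain ⟨X1, h1⟩ := FNB_case1 hRA η hη0 hη1
  obtain ⟨X2, h2⟩ := FNB_case2 hLW hCN η hη0 hη1
  refine ⟨max (max X1 X2) 1, fun X Z hX hZ => ?_⟩
  simp only [max_le_iff] at hX
  obtain ⟨⟨hX1, hX2⟩, hX3⟩ := hX
  have hx1 : (1 : ℝ) ≤ X := by exact_mod_cast hX3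
  have hx0 : (0 : ℝ) < X := by linarith
  have hZ' : (X : ℝ) ^ (3 / 2 + η) ≤ Z := by
    refine le_trans ?_ hZ
    exact Real.rpow_le_rpow_of_exponent_le hx1 (by linarith)
  have hXZ : (X : ℝ) ≤ Z := by
    refine le_trans ?_ hZ'
    calc (X : ℝ) = (X : ℝ) ^ (1 : ℝ) := (Real.rpow_one _).symm
      _ ≤ _ := Real.rpow_le_rpow_of_exponent_le hx1 (by linarith)
  have hz1 : (1 : ℝ) ≤ Z := by linarith
  have hxz1 : (1 : ℝ) ≤ (X : ℝ) * Z := by nlinarith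
  have key : (Z : ℝ) ^ (1 / 2 - η) ≤ sE X ∨ ((X : ℝ) * Z) ^ (1 / 2 - η) ≤ sE Z := by
    by_cases hc : (Z : ℝ) ≤ (X : ℝ) ^ (2 - η)
    · exact h2 X Z hX2 hZ' hc
    · exact Or.inr (h1 X Z hX1 (not_le.1 hc).le)
  rcases key with h | h
  · left
    exact (Real.rpow_le_rpow_of_exponent_le hz1 (by linarith)).trans h
  · right
    exact (Real.rpow_le_rpow_of_exponent_le hxz1 (by linarith)).trans h

end Pool.Agent.EP
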