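import Pool.Agent.helper7.EP.SpecA
import Pool.Agent.helper41.EP.ID

/-!
# Project ep, module PV: the terms of the right side for primes
-/

set_option autoImplicit false

open Finset PowerSeries

noncomputable section

namespace Pool.Agent.EP

theorem PV_A (a : ℕ) (ha : 2 ≤ a) : 2 ^ a % 24 = 4 ∨ 2 ^ a % 24 = 8 ∨ 2 ^ a % 24 = 16 := by
  rcases Nat.lt_or_ge a 3 with h | h
  · have : a = 2 := by omega
    subst this
    left
    norm_num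
  · exact Or.inr (ID_A a h)

theorem PV_mod (a k w p : ℕ) (ha : 2 ≤ a) (hk : k % 6 = 1) (hw : w ∈ ws (k * 2 ^ a))
    (hp : p % 24 = tcl a) : 0 < k * 2 ^ a - 3 * w ^ 2 ∧ ((k * 2 ^ a - 3 * w ^ 2) * p) % 24 = 23 := by
  simp only [ws, Finset.mem_filter, Finset.mem_range] at hw
  have hA := PV_A a ha
  have hw24 := ID_w w hw.2.1
  unfold tcl at hp
  obtain ⟨t, ht⟩ : ∃ t, k = 6 * t + 1 := ⟨k / 6, by omega⟩
  obtain ⟨s, hs⟩ : ∃ s, 2 ^ a = 4 * s := by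
    obtain ⟨b, rfl⟩ := Nat.exists_eq_add_of_le ha
    exact ⟨2 ^ b, by rw [pow_add]; norm_num⟩
  have hkA : (k * 2 ^ a) % 24 = 2 ^ a % 24 := by
    have : k * 2 ^ a = 24 * (t * s) + 2 ^ a := by
      rw [ht, hs]
      ring
    rw [this]
    omega
  obtain ⟨A, hAe⟩ : ∃ A, A = 2 ^ a := ⟨_, rfl⟩
  obtain ⟨K, hKe⟩ : ∃ K, K = k * 2 ^ a := ⟨_, rfl⟩
  obtain ⟨W, hWe⟩ : ∃ W, W = 3 * w ^ 2 := ⟨_, rfl⟩
  rw [← hAe] at hA hkA hp
  rw [← hKe, ← hWe] at hw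
  rw [← hAe] at hKe
  rw [← hKe] at hkA
  rw [← hWe] at hw24
  rw [← hAe, ← hKe, ← hWe]
  refine ⟨by omega, ?_⟩
  have hc : ((K - W) % 24 = 1 ∧ p % 24 = 23) ∨ ((K - W) % 24 = 5 ∧ p % 24 = 19) ∨
      ((K - W) % 24 = 13 ∧ p % 24 = 11) := by
    omega
  rw [Nat.mul_mod]
  rcases hc with ⟨h1, h2⟩ | ⟨h1, h2⟩ | ⟨h1, h2⟩ <;> rw [h1, h2]

theorem PV : PV_stmt := by
  intro a k w p ha hk hw hp hpt hnd
  obtain ⟨hj0, hm⟩ := PV_mod a k w p ha hk hw hpt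
  obtain ⟨j, hj⟩ : ∃ j, j = k * 2 ^ a - 3 * w ^ 2 := ⟨_, rfl⟩
  rw [← hj] at hj0 hm hnd ⊢
  refine ⟨by omega, ?_⟩
  unfold JG
  have hset : j.divisors.filter (fun d : ℕ => (d : ℤ) ∣ (p : ℤ)) = {1} := by
    ext d
    simp only [Finset.mem_filter, Nat.mem_divisors, Int.natCast_dvd_natCast,
      Finset.mem_singleton]
    constructor
    · rintro ⟨⟨h1, -⟩, h2⟩
      rcases (Nat.dvd_prime hp).1 h2 with h | h
      · exact h
      · rw [h] at h1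
        exact absurd h1 hnd
    · rintro rfl
      exact ⟨⟨one_dvd _, hj0.ne'⟩, one_dvd _⟩
  rw [hset, Finset.sum_singleton]
  have e1 : ((j : ℤ) * (p : ℤ) / ((1 : ℕ) : ℤ) ^ 2) = ((j * p : ℕ) : ℤ) := by
    push_cast
    simp
  rw [e1]
  unfold ac
  rw [if_pos]
  · congr 1
  · constructor <;> omega

end Pool.Agent.EP
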